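import Mathlib
import Pool.Agent.TH820.OddFinal

/-!
# Artin's holomorphy conjecture at zeros of small order: groups built from groups of large rank

`Pool.Agent.H541R3.ART.Irr G` is the set of irreducible complex characters of the finite group `G`.

`Pool.Agent.H541R3.ART.ArtinData G s₀` is a family of functions with the formal properties of the
Artin L-functions of a Galois extension `E/K` with group `G` near a point `s₀ ≠ 1`: functions
`L χ` for the irreducible characters `χ` of `G` and `Lin H ψ` for the linear characters `ψ` of the
subgroups `H`, such that `L χ` is meromorphic and not identically zero near `s₀` (Brauer), `Lin H ψ`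
has no pole at `s₀` (Artin reciprocity and Hecke), and `Lin H ψ` is the product of the
`L χ ^ ⟨χ|_H, ψ⟩` (induction). In particular `Lin ⊥ 1` stands for the Dedekind zeta function of `E`.

`Pool.Agent.H302R10.Rigid r S` says that every Heilbronn function of degree at most `r` on `S` is
constant: a Heilbronn function is a class function whose restriction to every subgroup `H` has a
nonnegative integer multiplicity against every linear character of `H`, and its degree is its value
at `1`.

`Pool.Agent.TH820.FacO r S` says that the finite group `S` is one of the following.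
* A group `Pool.Agent.W295.Cl.Fac r S` of the starting files: `A_m` with `m ≥ 5` and
  `r < (2 ^ j - 1) ⌊m / 2 ^ j⌋` for some `j ≥ 2`; in characteristic two and with explicit bounds for
  `r`: `SL_n(q)`, `Sp_{2n}(q)`, `Ω^±_{2n}(q)`, `SU_n(q)`.
* `SL_n(q)` for `q` a power of an odd prime `p` and `n ≥ 3`, if `r < n`, or if `p ≤ n` and
  `r gcd(n, q - 1) < q ^ (n - 1) - 1` (the smallest degree of a nontrivial character is
  `(q ^ n - q) / (q - 1)`).
* Any group with `Rigid r S`; the two previous items have this property
  (`Pool.Agent.TH820.FacO.rigid`).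

`Pool.Agent.TH820.BuiltC r (FacO r) N` says that the normal subgroup `N` of `G` is obtained from the
trivial subgroup by finitely many steps `M ≤ N` of the following two kinds.
* `LayC`: `N / M` is a normal subgroup of `G / M` generated by finitely many pairwise commuting
  subgroups, each a homomorphic image of a finite group with the property `FacO r`. There is no
  condition on the action of `G` on these subgroups.
* `Orb`: `N / M` is abelian and every nontrivial linear character of `N / M` has more than `r`
  conjugates under `G / M`.

`Pool.Agent.W446.AS.Frame X F D`: the centre `Z` of `X` is cyclic and contains all abelian normal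
subgroups of `X`, and `F` is a normal subgroup of `X` containing `Z` such that `F / Z` is abelian of
order `D ^ 2 > 1` and the centraliser of `F` in `X` is `Z`.

`Pool.Agent.W446.AS.TwoDim A` are functions with the formal properties of the Artin L-functions of
the irreducible characters of degree two of the subgroups of `G`, without pole at `s₀`; it is only
used in the last numerical case and in the clause `D ≠ 2`.
-/

set_option autoImplicit false

open Pool.Agent.H541R3.ART Pool.Agent.W446.AS

/-- Let `G` be the Galois group of `E/K`, let `r` be the order of `ζ_E` at `s₀`, and let `N` be a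
normal subgroup of `G` built as above. Then `L χ` is holomorphic and nonzero at `s₀` for every
irreducible character `χ` of `G` which is nontrivial on `N`. If the irreducible characters trivial
on `N` are monomial, then all `L χ` are holomorphic at `s₀`. If `Y = G / N` is solvable, then
(1) if some `L χ` has a pole at `s₀`, some quotient `X` of a subgroup of `Y` has a frame `F` of
degree `D` such that `2 D ≤ r`, or `D ≤ r` and `X / F` is cyclic;
(2) no `L χ` has a pole at `s₀` in each of the following cases: `r ≤ 2 P - 2` and all prime divisors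
of `|Y|` are at least `P ≥ 3`; `r ≤ 12` and `|Y|` is prime to `6`; `r ≤ 10` and `|Y|` is odd and
divisible neither by `375` nor by `1215`; `r ≤ 6`, the `L`-functions of degree two have no pole at
`s₀`, and `|Y|` is divisible by none of `108`, `160`, `375`. -/
theorem Pool.Agent.Results.MP_d2121a_nt.LargeRankLayers.result
    (G : Type) [Group G] [Finite G] (s₀ : ℂ) (A : ArtinData G s₀) (r : ℕ)
    (hr : meromorphicOrderAt (A.Lin ⊥ 1) s₀ = (r : WithTop ℤ)) (N : Subgroup G)
    (hN : Pool.Agent.TH820.BuiltC r (Pool.Agent.TH820.FacO r) N) :
    (∀ χ ∈ Irr G, (∃ n ∈ N, χ n ≠ χ 1) → meromorphicOrderAt (A.L χ) s₀ = 0) ∧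
    ((∀ χ ∈ Irr G, (∀ n ∈ N, χ n = χ 1) → IsMonomialChar χ) →
      ∀ χ ∈ Irr G, 0 ≤ meromorphicOrderAt (A.L χ) s₀) ∧
    ∀ (Y : Type) [Group Y] [Group.IsSolvable Y] (π : G →* Y), Function.Surjective π →
      π.ker = N →
      ((∃ χ ∈ Irr G, meromorphicOrderAt (A.L χ) s₀ < 0) →
        ∃ (H : Subgroup Y) (X : Type) (_ : Group X) (f : H →* X) (F : Subgroup X) (D : ℕ),
          Function.Surjective f ∧ Frame X F D ∧ (Nonempty (TwoDim A) → D ≠ 2) ∧
          (2 * D ≤ r ∨ (D ≤ r ∧ ∃ g : X, F ⊔ Subgroup.zpowers g = ⊤))) ∧
      (((∃ P : ℕ, 3 ≤ P ∧ r ≤ 2 * P - 2 ∧ ∀ q : ℕ, q.Prime → q ∣ Nat.card Y → P ≤ q) ∨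
          (r ≤ 12 ∧ (Nat.card Y).Coprime 6) ∨
          (r ≤ 10 ∧ Odd (Nat.card Y) ∧ ¬ 375 ∣ Nat.card Y ∧ ¬ 1215 ∣ Nat.card Y) ∨
          (r ≤ 6 ∧ Nonempty (TwoDim A) ∧ ¬ 108 ∣ Nat.card Y ∧ ¬ 160 ∣ Nat.card Y ∧
            ¬ 375 ∣ Nat.card Y)) →
        ∀ χ ∈ Irr G, 0 ≤ meromorphicOrderAt (A.L χ) s₀) :=
  Pool.Agent.TH820.artin_large A hr N hN
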