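import Mathlib
import Pool.Agent.TH820.KerArt2

/-!
# Artin's holomorphy conjecture at zeros which come from one Hecke L-function of a normal subgroup

`Pool.Agent.H541R3.ART.Irr G` is the set of irreducible complex characters of the finite group `G`.
`Pool.Agent.H541R3.ART.ArtinData G s₀` is a family of functions with the formal properties of the
Artin L-functions of a Galois extension `E/K` with group `G` near a point `s₀ ≠ 1`: functions
`L χ` for the irreducible characters `χ` of `G` and `Lin H ψ` for the linear characters `ψ` of the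
subgroups `H`, such that `L χ` is meromorphic and not identically zero near `s₀` (Brauer), `Lin H ψ`
has no pole at `s₀` (Artin reciprocity and Hecke), and `Lin H ψ` is the product of the
`L χ ^ ⟨χ|_H, ψ⟩` (induction). In particular `Lin ⊥ 1` stands for the Dedekind zeta function of `E`
and `Lin H 1` for that of the fixed field of `H`.
-/

set_option autoImplicit false

open Pool.Agent.H541R3.ART

/-- Let `G` be the Galois group of `E/K`, let `r` be the order of `ζ_E` at `s₀` and let `N` be a normal
subgroup with a linear character `l` whose L-function has order `r` at `s₀` (for `l = 1`: the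
zeta functions of `E` and of the fixed field of `N` have the same order). Then `L χ` has neither
a zero nor a pole at `s₀` unless the restriction of `χ` to `N` is a multiple of `l`; and if the
irreducible characters of the latter kind are monomial, then no `L χ` has a pole at `s₀`. -/
theorem Pool.Agent.Results.MP_d2121a_nt.NormalSubgroupOrder.result
    (G : Type) [Group G] [Finite G] (s₀ : ℂ) (A : ArtinData G s₀) (r : ℕ)
    (hr : meromorphicOrderAt (A.Lin ⊥ 1) s₀ = (r : WithTop ℤ))
    (N : Subgroup G) [N.Normal] (l : N →* ℂˣ)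
    (hl : meromorphicOrderAt (A.Lin N l) s₀ = (r : WithTop ℤ)) :
    (∀ χ ∈ Irr G, meromorphicOrderAt (A.L χ) s₀ ≠ 0 → ∀ n : N, χ n = ((l n : ℂˣ) : ℂ) * χ 1) ∧
    ((∀ χ ∈ Irr G, (∀ n : N, χ n = ((l n : ℂˣ) : ℂ) * χ 1) → IsMonomialChar χ) →
      ∀ χ ∈ Irr G, 0 ≤ meromorphicOrderAt (A.L χ) s₀) := by
  classical
  have h1 : ∀ χ ∈ Irr G, meromorphicOrderAt (A.L χ) s₀ ≠ 0 →
      ∀ n : N, χ n = ((l n : ℂˣ) : ℂ) * χ 1 := fun χ hχ hne n =>
    Pool.Agent.TH820.artin_normal A hr N l hl χ hχ hne n
  refine ⟨h1, fun hmon χ hχ => ?_⟩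
  by_cases h : meromorphicOrderAt (A.L χ) s₀ = 0
  · exact h.ge
  have : Fintype G := Fintype.ofFinite G
  obtain ⟨k, hk⟩ := pair_monomial A.isHeilbronn (hmon χ hχ (h1 χ hχ h))
  have h2 := A.order_eq hχ (k := (k : ℤ)) (by rw [hk]; simp)
  rw [h2]
  exact_mod_cast Int.natCast_nonneg k
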