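import Mathlib
import Pool.Agent.TH820.HW.R3

/-!
# Artin's holomorphy conjecture where a quotient of Dedekind zeta functions has order at most two

`Pool.Agent.H541R3.ART.Irr G` is the set of irreducible complex characters of the finite group `G`.

`Pool.Agent.H541R3.ART.ArtinData G s₀` is a family of functions with the formal properties of the
Artin L-functions of a Galois extension `E/K` with group `G` near a point `s₀ ≠ 1`: functions
`L χ` for the irreducible characters `χ` of `G` and `Lin H ψ` for the linear characters `ψ` of the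
subgroups `H`, such that `L χ` is meromorphic and not identically zero near `s₀` (Brauer), `Lin H ψ`
has no pole at `s₀` (Artin reciprocity and Hecke), and `Lin H ψ` is the product of the
`L χ ^ ⟨χ|_H, ψ⟩` (induction). In particular `Lin H 1` stands for the Dedekind zeta function of the
fixed field `E ^ H`.
-/

set_option autoImplicit false

open Pool.Agent.H541R3.ART

/-- Let `G` be the Galois group of `E/K` and `M ≤ N` normal subgroups of `G` with fixed fields
`E ^ M ⊇ E ^ N`.
* Let `N` be solvable.  Suppose that the order at `s₀` of the (entire) quotient of `ζ_{E ^ M}` by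
  `ζ_{E ^ N}` is at most `1`, or that it is at most `2` and no subgroup of `G` has a quotient isomorphic
  to `SL(2, 3)`.  Then `L χ` is holomorphic at `s₀` for all irreducible characters `χ` that are
  trivial on `M` and nontrivial on `N`; and if `L χ` vanishes at `s₀`, then `χ` is linear, or it vanishes
  off a subgroup `U` of index at most two and is a sum of two linear characters on `U`.
* Suppose that the order of `ζ_{E ^ M}` at `s₀` is at most `1`, or that it is at most `2` and no
  subgroup of `G` has a quotient isomorphic to `SL(2, 3)`.  Then the same holds for all irreducible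
  characters `χ` that are trivial on `M`. -/
theorem Pool.Agent.Results.MP_d2121a_nt.RelativeOrderTwo.result
    (G : Type) [Group G] [Finite G] (s₀ : ℂ) (A : ArtinData G s₀) (M N : Subgroup G)
    [M.Normal] [N.Normal] (hMN : M ≤ N) (c d : ℕ)
    (hc : meromorphicOrderAt (A.Lin M 1) s₀ = (c : WithTop ℤ))
    (hd : meromorphicOrderAt (A.Lin N 1) s₀ = (d : WithTop ℤ)) :
    (Group.IsSolvable N →
      (c ≤ d + 1 ∨ (∀ (H : Subgroup G) (f : H →* Matrix.SpecialLinearGroup (Fin 2) (ZMod 3)),
        ¬ Function.Surjective f) ∧ c ≤ d + 2) →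
      ∀ χ ∈ Irr G, (∀ x ∈ M, χ x = χ 1) → (∃ x ∈ N, χ x ≠ χ 1) →
        0 ≤ meromorphicOrderAt (A.L χ) s₀ ∧
          (meromorphicOrderAt (A.L χ) s₀ ≠ 0 → χ 1 = 1 ∨
            ∃ (U : Subgroup G) (ψ μ : U →* ℂˣ), U.index ≤ 2 ∧ (∀ g, g ∉ U → χ g = 0) ∧
              ∀ m : U, χ m = ((ψ m : ℂˣ) : ℂ) + ((μ m : ℂˣ) : ℂ))) ∧
    ((c ≤ 1 ∨ (∀ (H : Subgroup G) (f : H →* Matrix.SpecialLinearGroup (Fin 2) (ZMod 3)),
        ¬ Function.Surjective f) ∧ c ≤ 2) →
      ∀ χ ∈ Irr G, (∀ x ∈ M, χ x = χ 1) →
        0 ≤ meromorphicOrderAt (A.L χ) s₀ ∧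
          (meromorphicOrderAt (A.L χ) s₀ ≠ 0 → χ 1 = 1 ∨
            ∃ (U : Subgroup G) (ψ μ : U →* ℂˣ), U.index ≤ 2 ∧ (∀ g, g ∉ U → χ g = 0) ∧
              ∀ m : U, χ m = ((ψ m : ℂˣ) : ℂ) + ((μ m : ℂˣ) : ℂ))) :=
  Pool.Agent.TH820.HW.rel_main A hMN c d hc hd
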