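import Mathlib
import Pool.Agent.TH820.KerArt2

/-!
# Artin's holomorphy conjecture at zeros which come from one Hecke L-function at small primes

`Pool.Agent.H541R3.ART.Irr G` is the set of irreducible complex characters of the finite group `G`.
`Pool.Agent.H541R3.ART.ArtinData G s₀` is a family of functions with the formal properties of the
Artin L-functions of a Galois extension `E/K` with group `G` near a point `s₀ ≠ 1`: functions
`L χ` for the irreducible characters `χ` of `G` and `Lin H ψ` for the linear characters `ψ` of the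
subgroups `H`, such that `L χ` is meromorphic and not identically zero near `s₀` (Brauer), `Lin H ψ`
has no pole at `s₀` (Artin reciprocity and Hecke), and `Lin H ψ` is the product of the
`L χ ^ ⟨χ|_H, ψ⟩` (induction). In particular `Lin ⊥ 1` stands for the Dedekind zeta function of `E`
and `Lin H 1` for that of the fixed field of `H`.
-/

set_option autoImplicit false

open Pool.Agent.H541R3.ART

/-- Let `G` be the Galois group of `E/K` and let `r` be the order of `ζ_E` at `s₀`.
(1) If for every prime `p ≤ r` some linear character of a Sylow `p`-subgroup has an L-function of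
order `r` at `s₀`, then no `L χ` has a pole at `s₀`, and `L χ` vanishes at `s₀` only for linear `χ`.
(2) Let `l` be a linear character of a Sylow `2`-subgroup `S` whose L-function has order `r` at
`s₀`. If `r ≤ 4` or `G` is solvable, and `r > 0`, then `l` extends to a linear character `μ` of `G`,
and `L χ` has neither a zero nor a pole at `s₀` unless `χ g = μ g * χ 1` for all `g` of two-power
order. If `r ≤ 4`, or if `G` is solvable and `r ≤ 10` and neither `375` nor `1215` divides `|G|`, or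
`r ≤ 12` and `3` does not divide `|G|`, or `r ≤ 2 P - 2` and all odd prime divisors of `|G|` are at
least `P ≥ 3`, then no `L χ` has a pole at `s₀`. -/
theorem Pool.Agent.Results.MP_d2121a_nt.SylowOrder.result
    (G : Type) [Group G] [Finite G] (s₀ : ℂ) (A : ArtinData G s₀) (r : ℕ)
    (hr : meromorphicOrderAt (A.Lin ⊥ 1) s₀ = (r : WithTop ℤ)) :
    ((∀ p : ℕ, p.Prime → p ≤ r → ∃ (S : Sylow p G) (l : (S : Subgroup G) →* ℂˣ),
        meromorphicOrderAt (A.Lin S l) s₀ = (r : WithTop ℤ)) →
      ∀ χ ∈ Irr G, 0 ≤ meromorphicOrderAt (A.L χ) s₀ ∧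
        (meromorphicOrderAt (A.L χ) s₀ ≠ 0 → χ 1 = 1)) ∧
    (∀ (S : Sylow 2 G) (l : (S : Subgroup G) →* ℂˣ),
      meromorphicOrderAt (A.Lin S l) s₀ = (r : WithTop ℤ) →
      (0 < r → r ≤ 4 ∨ Group.IsSolvable G →
        ∃ μ : G →* ℂˣ, (∀ s : (S : Subgroup G), μ s = l s) ∧
          ∀ χ ∈ Irr G, meromorphicOrderAt (A.L χ) s₀ ≠ 0 →
            ∀ (g : G) (k : ℕ), g ^ 2 ^ k = 1 → χ g = ((μ g : ℂˣ) : ℂ) * χ 1) ∧
      ((r ≤ 4 ∨ Group.IsSolvable G ∧
          ((r ≤ 10 ∧ ¬ 375 ∣ Nat.card G ∧ ¬ 1215 ∣ Nat.card G) ∨ (r ≤ 12 ∧ ¬ 3 ∣ Nat.card G) ∨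
            ∃ P : ℕ, 3 ≤ P ∧ r ≤ 2 * P - 2 ∧ ∀ q : ℕ, q.Prime → q ≠ 2 → q ∣ Nat.card G → P ≤ q)) →
        ∀ χ ∈ Irr G, 0 ≤ meromorphicOrderAt (A.L χ) s₀)) := by
  refine ⟨fun h χ hχ => Pool.Agent.TH820.artin_stark A hr h χ hχ, fun S l hl => ⟨?_, ?_⟩⟩
  · intro hr0 h
    exact Pool.Agent.TH820.artin_two_zero A hr0.ne' hr S l hl h
  · intro h χ hχ
    exact Pool.Agent.TH820.artin_two_pos A hr S l hl h χ hχ
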